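import Mathlib
import Pool.Agent.Q256.T4.Def

set_option autoImplicit false

/-!
The norm of a value at a quadratic point is the resultant.
-/

namespace Pool.Agent.Q296.T4

open Finset
open Pool.Agent.Q256
open Pool.Agent.Q256.T4
open Pool.Agent.Q256.LN (res)

theorem res_natDegree {N d : ℕ} (u v : Fin N → ℤ) (F : MvPolynomial (Fin N) ℤ)
    (hF : F.IsHomogeneous d) : (res u v F).natDegree ≤ d := by
  classical
  have h1 : res u v F = ∑ α ∈ F.support, Polynomial.C (F.coeff α) *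
      ∏ k, (Polynomial.C (u k) * Polynomial.X + Polynomial.C (v k)) ^ (α k) := by
    unfold res
    rw [MvPolynomial.aeval_def, MvPolynomial.eval₂_eq']
    rfl
  rw [h1]
  refine Polynomial.natDegree_sum_le_of_forall_le _ _ (fun α hα => ?_)
  have hdeg : ∑ k, α k = d := by
    have := hF (MvPolynomial.mem_support_iff.1 hα)
    rw [← this, Finsupp.weight_apply, Finsupp.sum_fintype]
    · simp
    · simp
  refine (Polynomial.natDegree_C_mul_le _ _).trans ?_
  refine (Polynomial.natDegree_prod_le _ _).trans ?_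
  rw [← hdeg]
  refine sum_le_sum (fun k _ => ?_)
  refine Polynomial.natDegree_pow_le.trans ?_
  refine (Nat.mul_le_mul_left _ (Polynomial.natDegree_linear_le)).trans ?_
  rw [mul_one]

theorem P_cf {N d : ℕ} (u v : Fin N → ℤ) (F : MvPolynomial (Fin N) ℤ)
    (hF : F.IsHomogeneous d) : T3.P (cf d u v F) = res u v F := by
  ext m
  rw [T3.P_coeff]
  split_ifs with h
  · rfl
  · have := res_natDegree u v F hF
    exact (Polynomial.coeff_eq_zero_of_natDegree_lt (by omega)).symm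

/-- the value of the form at the point, in the embedding given by `r`. -/
theorem phi_val {n : ℕ} {p q : Fin (n + 2) → ℤ} {D : ℤ} {u v : Fin (n + 2) → ℤ}
    {s1 s2 t1 t2 : ℤ} (hp : ∀ k, p k = s1 * u k + t1 * v k) (hq : ∀ k, q k = s2 * u k + t2 * v k)
    (d : ℕ) (F : MvPolynomial (Fin (n + 2)) ℤ) (hF : F.IsHomogeneous d) (r : ℂ) (hr : r ^ 2 = D)
    (ht : (t1 : ℂ) + t2 * r ≠ 0) :
    T3.phi r hr (valD F p q D) = ((t1 : ℂ) + t2 * r) ^ d *
      Polynomial.aeval (((s1 : ℂ) + s2 * r) / ((t1 : ℂ) + t2 * r)) (T3.P (cf d u v F)) := by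
  rw [P_cf u v F hF, LN.res_aeval, ← LN.aeval_scaleC F hF]
  unfold valD
  have h1 : T3.phi r hr (MvPolynomial.aeval (fun k => (⟨p k, q k⟩ : ℤ√D)) F) =
      MvPolynomial.aeval (fun k => T3.phi r hr (⟨p k, q k⟩ : ℤ√D)) F := by
    rw [MvPolynomial.aeval_def, MvPolynomial.aeval_def, MvPolynomial.eval₂_eq',
      MvPolynomial.eval₂_eq', map_sum]
    refine sum_congr rfl (fun α _ => ?_)
    rw [map_mul, map_prod]
    congr 1
    · simp
    · exact prod_congr rfl (fun k _ => map_pow _ _ _)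
  rw [h1]
  congr 1
  congr 1
  funext k
  rw [T3.phi_apply, hp k, hq k]
  push_cast
  field_simp
  ring

theorem frac_add {x x' y y' : ℂ} (hy : y ≠ 0) (hy' : y' ≠ 0) :
    (y * y') * (x / y + x' / y') = x * y' + x' * y := by
  field_simp

theorem frac_mul {x x' y y' : ℂ} (hy : y ≠ 0) (hy' : y' ≠ 0) :
    (y * y') * (x / y * (x' / y')) = x * x' := by
  field_simp

theorem nval_eq {n : ℕ} {p q : Fin (n + 2) → ℤ} {D : ℤ} {L : Fin n → Fin (n + 2) → ℤ}
    {u v : Fin (n + 2) → ℤ} {a b e f c0 s1 s2 t1 t2 : ℤ}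
    (h : Rep p q D L u v a b e f c0 s1 s2 t1 t2) (d : ℕ) (F : MvPolynomial (Fin (n + 2)) ℤ)
    (hF : F.IsHomogeneous d) : nval d F p q D = T3.Res (cf d u v F) a b e := by
  obtain ⟨r, hr⟩ := T3.exists_sqrt D
  have hr' : (-r) ^ 2 = (D : ℂ) := T3.neg_sq' hr
  have ha0 := h.quad.a0
  have haC : (a : ℂ) ≠ 0 := by exact_mod_cast ha0
  have hc0 : c0 ≠ 0 := h.cpos.ne'
  have hcC : (c0 : ℂ) ≠ 0 := by exact_mod_cast hc0
  have hA : ((t1 : ℂ) + t2 * r) * ((t1 : ℂ) + t2 * (-r)) = c0 * a := by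
    have : ((t1 ^ 2 - D * t2 ^ 2 : ℤ) : ℂ) = ((c0 * a : ℤ) : ℂ) := by rw [h.ha]
    push_cast at this
    linear_combination this - (t2 : ℂ) ^ 2 * hr
  have hE : ((s1 : ℂ) + s2 * r) * ((s1 : ℂ) + s2 * (-r)) = c0 * e := by
    have : ((s1 ^ 2 - D * s2 ^ 2 : ℤ) : ℂ) = ((c0 * e : ℤ) : ℂ) := by rw [h.he]
    push_cast at this
    linear_combination this - (s2 : ℂ) ^ 2 * hr
  have hB : ((s1 : ℂ) + s2 * r) * ((t1 : ℂ) + t2 * (-r)) +
      ((s1 : ℂ) + s2 * (-r)) * ((t1 : ℂ) + t2 * r) = -(c0 * b) := by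
    have : ((2 * (s1 * t1 - D * (s2 * t2)) : ℤ) : ℂ) = ((-(c0 * b) : ℤ) : ℂ) := by rw [h.hb]
    push_cast at this
    linear_combination this - 2 * (s2 : ℂ) * t2 * hr
  have hprod : ((t1 : ℂ) + t2 * r) * ((t1 : ℂ) + t2 * (-r)) ≠ 0 := by
    rw [hA]; exact mul_ne_zero hcC haC
  have ht : (t1 : ℂ) + t2 * r ≠ 0 := left_ne_zero_of_mul hprod
  have ht' : (t1 : ℂ) + t2 * (-r) ≠ 0 := right_ne_zero_of_mul hprod
  have h1 := phi_val h.hp h.hq d F hF r hr ht
  have h2 := phi_val h.hp h.hq d F hF (-r) hr' ht'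
  set θ : ℂ := ((s1 : ℂ) + s2 * r) / ((t1 : ℂ) + t2 * r) with hθ
  set θ' : ℂ := ((s1 : ℂ) + s2 * (-r)) / ((t1 : ℂ) + t2 * (-r)) with hθ'
  have hs : (a : ℂ) * (θ + θ') = -b := by
    have e1 : (c0 : ℂ) * (a * (θ + θ')) = c0 * (-b) := by
      calc (c0 : ℂ) * (a * (θ + θ')) = (((t1 : ℂ) + t2 * r) * ((t1 : ℂ) + t2 * (-r))) * (θ + θ') := by
            rw [hA]; ring
        _ = ((s1 : ℂ) + s2 * r) * ((t1 : ℂ) + t2 * (-r)) +
            ((s1 : ℂ) + s2 * (-r)) * ((t1 : ℂ) + t2 * r) := by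
            rw [hθ, hθ']; exact frac_add ht ht'
        _ = _ := by rw [hB]; ring
    exact mul_left_cancel₀ hcC e1
  have hpr : (a : ℂ) * (θ * θ') = e := by
    have e1 : (c0 : ℂ) * (a * (θ * θ')) = c0 * e := by
      calc (c0 : ℂ) * (a * (θ * θ')) = (((t1 : ℂ) + t2 * r) * ((t1 : ℂ) + t2 * (-r))) * (θ * θ') := by
            rw [hA]; ring
        _ = ((s1 : ℂ) + s2 * r) * ((s1 : ℂ) + s2 * (-r)) := by
            rw [hθ, hθ']; exact frac_mul ht ht'
        _ = _ := by rw [hE]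
    exact mul_left_cancel₀ hcC e1
  have h3 := T3.res_eq (cf d u v F) a b e ha0 θ θ' hs hpr
  have h4 : (valD F p q D).norm = c0 ^ d * T3.Res (cf d u v F) a b e := by
    have h5 : (((valD F p q D).norm : ℤ) : ℂ) = ((c0 ^ d * T3.Res (cf d u v F) a b e : ℤ) : ℂ) := by
      have h6 : (((valD F p q D).norm : ℤ) : ℂ) =
          T3.phi r hr (valD F p q D) * T3.phi (-r) hr' (valD F p q D) := by
        rw [T3.phi_apply, T3.phi_apply, Zsqrtd.norm_def]
        push_cast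
        linear_combination ((valD F p q D).im : ℂ) ^ 2 * hr
      rw [h6, h1, h2]
      push_cast
      rw [h3]
      calc _ = (((t1 : ℂ) + t2 * r) * ((t1 : ℂ) + t2 * (-r))) ^ d *
            (Polynomial.aeval θ (T3.P (cf d u v F)) * Polynomial.aeval θ' (T3.P (cf d u v F))) := by
            rw [mul_pow]; ring
        _ = _ := by rw [hA, mul_pow]; ring
    exact_mod_cast h5
  unfold nval
  rw [h4, h.hc]
  exact Int.mul_ediv_cancel_left _ (pow_ne_zero _ hc0)

end Pool.Agent.Q296.T4
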